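import Mathlib

/-!
# All integer solutions of `1/w + 1/x + 1/y + 1/z + 1/(wxyz) = 0`

For nonzero integers `w, x` put `s = w + x`, `p = w x`.  The equation reads
`s (y z) + p (y + z) = -1`, hence `(s y + p) (s z + p) = p ^ 2 - s`.
-/

namespace Pool.Agent.Results.MP_d45172_nt.DivisorDescription

/-- `(w, x, y, z)` is a solution of
`1/w + 1/x + 1/y + 1/z + 1/(wxyz) = 0` in nonzero integers. -/
def IsSolution (w x y z : ℤ) : Prop :=
  w ≠ 0 ∧ x ≠ 0 ∧ y ≠ 0 ∧ z ≠ 0 ∧
    1 / (w : ℚ) + 1 / (x : ℚ) + 1 / (y : ℚ) + 1 / (z : ℚ)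
      + 1 / ((w : ℚ) * x * y * z) = 0

lemma isSolution_iff (w x y z : ℤ) :
    IsSolution w x y z ↔ (w ≠ 0 ∧ x ≠ 0 ∧ y ≠ 0 ∧ z ≠ 0) ∧
      (w + x) * (y * z) + (w * x) * (y + z) = -1 := by
  unfold IsSolution
  constructor
  · rintro ⟨hw, hx, hy, hz, h⟩
    refine ⟨⟨hw, hx, hy, hz⟩, ?_⟩
    have hw' : (w : ℚ) ≠ 0 := by exact_mod_cast hw
    have hx' : (x : ℚ) ≠ 0 := by exact_mod_cast hx
    have hy' : (y : ℚ) ≠ 0 := by exact_mod_cast hy
    have hz' : (z : ℚ) ≠ 0 := by exact_mod_cast hz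
    field_simp at h
    have h2 : ((w : ℚ) + x) * (y * z) + (w * x) * (y + z) = -1 := by linarith
    exact_mod_cast h2
  · rintro ⟨⟨hw, hx, hy, hz⟩, h⟩
    refine ⟨hw, hx, hy, hz, ?_⟩
    have hw' : (w : ℚ) ≠ 0 := by exact_mod_cast hw
    have hx' : (x : ℚ) ≠ 0 := by exact_mod_cast hx
    have hy' : (y : ℚ) ≠ 0 := by exact_mod_cast hy
    have hz' : (z : ℚ) ≠ 0 := by exact_mod_cast hz
    have h2 : ((w : ℚ) + x) * (y * z) + (w * x) * (y + z) = -1 := by exact_mod_cast h
    field_simp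
    linarith

lemma sq_ne (w x : ℤ) (hw : w ≠ 0) (hx : x ≠ 0) : (w * x) ^ 2 - (w + x) ≠ 0 := by
  intro h
  have h1 : 1 ≤ w ^ 2 := by nlinarith [sq_nonneg w, Int.one_le_abs hw, sq_abs w, abs_nonneg w]
  have h2 : 1 ≤ x ^ 2 := by nlinarith [sq_nonneg x, Int.one_le_abs hx, sq_abs x, abs_nonneg x]
  -- `w ∣ x`, `x ∣ w` from the equation
  have hwx : w ∣ x := ⟨w * x ^ 2 - 1, by linarith [h]⟩
  have hxw : x ∣ w := ⟨w ^ 2 * x - 1, by linarith [h]⟩
  have hn : w.natAbs = x.natAbs :=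
    Nat.dvd_antisymm (Int.natAbs_dvd_natAbs.2 hwx) (Int.natAbs_dvd_natAbs.2 hxw)
  rcases Int.natAbs_eq_natAbs_iff.1 hn with e | e
  · subst e
    have h3 : w * (w ^ 3 - 2) = 0 := by linarith [h]
    rcases mul_eq_zero.1 h3 with h4 | h4
    · exact hw h4
    · have h5 : w ^ 3 = 2 := by linarith
      have h6 : 0 < w := by
        by_contra h7
        have h8 : w ≤ 0 := not_lt.1 h7
        nlinarith [mul_nonneg (sq_nonneg w) (neg_nonneg.2 h8)]
      have h9 : w < 2 := by
        by_contra h7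
        have h8 : 2 ≤ w := not_lt.1 h7
        nlinarith [mul_le_mul h8 h8 (by norm_num) h6.le]
      have : w = 1 := by omega
      subst this
      norm_num at h5
  · subst e
    have h3 : (x ^ 2) ^ 2 = 0 := by linarith [h]
    have h4 : x ^ 2 = 0 := by nlinarith [sq_nonneg (x ^ 2)]
    linarith


/-- Complete description of the integer solutions of
`1/w + 1/x + 1/y + 1/z + 1/(wxyz) = 0`. -/
theorem result (w x y z : ℤ) :
    (w + x = 0 →
      (IsSolution w x y z ↔
        (w = 1 ∨ w = -1) ∧ y + z = 1 ∧ y ≠ 0 ∧ z ≠ 0)) ∧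
    (w + x ≠ 0 →
      (IsSolution w x y z ↔
        w ≠ 0 ∧ x ≠ 0 ∧ IsCoprime w x ∧ y ≠ 0 ∧ z ≠ 0 ∧
        ∃ d : ℤ, d ∣ (w * x) ^ 2 - (w + x) ∧ (w + x) ∣ d - w * x ∧
          y = (d - w * x) / (w + x) ∧
          z = (((w * x) ^ 2 - (w + x)) / d - w * x) / (w + x))) ∧
    (w ≠ 0 → x ≠ 0 → (w * x) ^ 2 - (w + x) ≠ 0) := by
  refine ⟨?_, ?_, sq_ne w x⟩
  · intro hs
    rw [isSolution_iff]
    have hx : x = -w := by linarith
    subst hx
    constructor
    · rintro ⟨⟨hw, hx, hy, hz⟩, h⟩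
      have h1 : w ^ 2 * (y + z) = 1 := by linarith [h]
      have h2 : IsUnit (w ^ 2) := IsUnit.of_mul_eq_one _ h1
      have h3 : IsUnit w := (isUnit_pow_iff (by norm_num)).1 h2
      have h4 : w = 1 ∨ w = -1 := Int.isUnit_iff.1 h3
      refine ⟨h4, ?_, hy, hz⟩
      rcases h4 with h4 | h4 <;> subst h4 <;> linarith
    · rintro ⟨h4, h5, hy, hz⟩
      have hz' : z = 1 - y := by linarith
      subst hz'
      rcases h4 with h4 | h4 <;> subst h4
      · exact ⟨⟨by norm_num, by norm_num, hy, hz⟩, by ring⟩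
      · exact ⟨⟨by norm_num, by norm_num, hy, hz⟩, by ring⟩
  · intro hs
    rw [isSolution_iff]
    constructor
    · rintro ⟨⟨hw, hx, hy, hz⟩, h⟩
      have hN : ((w + x) * y + w * x) * ((w + x) * z + w * x) = (w * x) ^ 2 - (w + x) := by
        linear_combination (w + x) * h
      have hN0 := sq_ne w x hw hx
      have hd0 : (w + x) * y + w * x ≠ 0 := by
        intro h0
        rw [h0, zero_mul] at hN
        exact hN0 hN.symm
      refine ⟨hw, hx, ?_, hy, hz, (w + x) * y + w * x, ⟨_, hN.symm⟩, ⟨y, by ring⟩, ?_, ?_⟩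
      · exact ⟨-(y * z + x * (y + z)), -(y * z), by linear_combination -h⟩
      · rw [show (w + x) * y + w * x - w * x = (w + x) * y by ring,
          Int.mul_ediv_cancel_left _ hs]
      · rw [← hN, Int.mul_ediv_cancel_left _ hd0,
          show (w + x) * z + w * x - w * x = (w + x) * z by ring,
          Int.mul_ediv_cancel_left _ hs]
    · rintro ⟨hw, hx, hcop, hy, hz, d, ⟨e, he⟩, ⟨k, hk⟩, hy', hz'⟩
      refine ⟨⟨hw, hx, hy, hz⟩, ?_⟩
      have hN0 := sq_ne w x hw hx
      have hd0 : d ≠ 0 := by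
        intro h0
        rw [h0, zero_mul] at he
        exact hN0 he
      rw [he, Int.mul_ediv_cancel_left _ hd0] at hz'
      rw [hk, Int.mul_ediv_cancel_left _ hs] at hy'
      subst hy'
      -- `(w+x) ∣ e - w x`
      have hc1 : IsCoprime (w + x) (w * x) := by
        apply IsCoprime.mul_right
        · have := (IsCoprime.add_mul_left_left hcop.symm 1)
          simpa [add_comm] using this
        · have := (IsCoprime.add_mul_left_left hcop 1)
          simpa using this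
      have hd : d = w * x + (w + x) * y := by linarith
      have hdiv : (w + x) ∣ (w * x) * (e - w * x) := by
        refine ⟨-1 - y * e, ?_⟩
        rw [hd] at he
        linear_combination -he
      obtain ⟨m, hm⟩ := hc1.dvd_of_dvd_mul_left hdiv
      rw [hm, Int.mul_ediv_cancel_left _ hs] at hz'
      subst hz'
      have he' : e = w * x + (w + x) * z := by linarith
      rw [hd, he'] at he
      have : (w + x) * ((w + x) * (y * z) + (w * x) * (y + z) + 1) = 0 := by
        linear_combination -he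
      rcases mul_eq_zero.1 this with h0 | h0
      · exact absurd h0 hs
      · linarith

end Pool.Agent.Results.MP_d45172_nt.DivisorDescription
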